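import Pool.Agent.DPF.Stmts

/-!
# Squad DPF, module SUM: both sides of the step as sums over `A`
-/

namespace Pool.Agent.DPF.H32

open Finset Pool.Agent.DPS Pool.Agent.DPF

theorem not_mem_ini {n : ℕ} (c : Fin n) : c ∉ ini n c.val := by
  intro h
  have := (mem_filter.1 h).2
  omega

theorem split_eq {n : ℕ} (R I : Finset (Fin n)) : R ∩ I ∪ R \ I = R := by
  ext x
  simp only [mem_union, mem_inter, mem_sdiff]
  tauto

theorem disj_AA_XX {n : ℕ} (c : Fin n) (𝒯 : Finset (Finset (Fin n))) :
    Disjoint (AA c 𝒯) (XX c 𝒯) := by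
  rw [Finset.disjoint_left]
  intro E h1 h2
  exact (mem_filter.1 h2).2.2 (mem_filter.1 h1).1

/-- SUM -/
theorem sum (dga : DGAStmt) (dgb : DGBStmt) (spl : SPLStmt) : SUMStmt := by
  classical
  intro n k t r θ c 𝒯 hG
  constructor
  · have h := spl n r c (fun b A => ph θ (d1 c 𝒯 k b A)) (fun b A => ph θ (d0 c 𝒯 k b A))
    unfold Lam
    rw [← h]
    apply Finset.sum_congr rfl
    intro R _
    have h1 := dgb n k t c 𝒯 hG (R ∩ ini n c.val) (R \ ini n c.val) inter_subset_right
      sdiff_disjoint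
    rw [split_eq] at h1
    rw [h1]
    have h2 : c ∈ R \ ini n c.val ↔ c ∈ R := by
      rw [mem_sdiff]
      exact ⟨fun h => h.1, fun h => ⟨h, not_mem_ini c⟩⟩
    by_cases hc : c ∈ R
    · rw [if_pos (h2.2 hc), if_pos hc]
    · rw [if_neg (fun h => hc (h2.1 h)), if_neg hc]
  · intro st j
    have h := spl n r c (fun b A => ph θ (dn c 𝒯 k b st j A)) (fun b A => ph θ (dn c 𝒯 k b st j A))
    have e1 : ∀ A : Finset (Fin n), (if A.card ≤ r then
          ((wl (n - c.val) (r - A.card) : ℝ) + ((n - c.val - 1).choose (r - A.card) : ℝ)) *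
            ph θ (dn c 𝒯 k (r - A.card) st j A) else 0) =
        if A.card ≤ r then (wl (n - c.val) (r - A.card) : ℝ) *
            ph θ (dn c 𝒯 k (r - A.card) st j A) + ((n - c.val - 1).choose (r - A.card) : ℝ) *
            ph θ (dn c 𝒯 k (r - A.card) st j A) else 0 := by
      intro A
      split_ifs
      · ring
      · rfl
    rw [Finset.sum_congr rfl (fun A _ => e1 A), ← h]
    unfold Lam
    apply Finset.sum_congr rfl
    intro R _
    have hsub : ∀ E ∈ AA c 𝒯 ∪ YY st j (XX c 𝒯), E ⊆ ini n c.val := by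
      intro E hE
      rcases mem_union.1 hE with h1 | h1
      · exact (mem_filter.1 h1).2
      · have h2 := (mem_filter.1 h1).1
        exact mem_powerset.1 (mem_filter.1 h2).1
    have h1 := dga n k c.val (AA c 𝒯 ∪ YY st j (XX c 𝒯)) (R ∩ ini n c.val) (R \ ini n c.val)
      c.isLt.le hsub inter_subset_right sdiff_disjoint
    rw [split_eq] at h1
    rw [h1, ite_self]
    congr 1
    -- the degree
    unfold dn sm hh
    have h3 : ov (AA c 𝒯 ∪ YY st j (XX c 𝒯)) (R ∩ ini n c.val) =
        ov (AA c 𝒯) (R ∩ ini n c.val) ∪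
          (ov (XX c 𝒯) (R ∩ ini n c.val)).filter (fun E => kp st j E) := by
      ext E
      simp only [ov, YY, mem_filter, mem_union]
      tauto
    have h4 : Disjoint (ov (AA c 𝒯) (R ∩ ini n c.val))
        ((ov (XX c 𝒯) (R ∩ ini n c.val)).filter (fun E => kp st j E)) := by
      rw [Finset.disjoint_left]
      intro E h5 h6
      exact Finset.disjoint_left.1 (disj_AA_XX c 𝒯) (mem_filter.1 h5).1
        (mem_filter.1 (mem_filter.1 h6).1).1
    rw [h3, Finset.sum_union h4, Nat.cast_add, Nat.cast_sum, Nat.cast_sum, Finset.sum_filter]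

end Pool.Agent.DPF.H32
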